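import Pool.Agent.H92.MM.Def

/-!
# [H61 UL DEF] MP_8923e7_nt, THEOREM G: interface between part A (uniform laws) and part B

All shifts and the modulus are bounded by a power of `log x`, the laws hold for `x ≥ x0` SIMULTANEOUSLY for all data.
-/

namespace Pool.Agent.H61.UL

open Finset Filter Pool.Agent.H21.MT Pool.Agent.H92.MM

/-- admissible data at `x`: set of shifts `H`, modulus `W` (squarefree, divisible by all primes `≤ w` and by all primes
dividing a difference of two shifts), class `b` -/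
structure OkH (A : ℝ) (w : ℕ) (x : ℝ) (H : Finset ℕ) (W b : ℕ) : Prop where
  hle : ∀ y ∈ H, (y : ℝ) ≤ Real.log x ^ A
  wW : primorial w ∣ W
  sq : Squarefree W
  Wle : (W : ℝ) ≤ Real.log x ^ A
  dif : ∀ y ∈ H, ∀ z ∈ H, y < z → ∀ p : ℕ, p.Prime → p ∣ z - y → p ∣ W
  cop : ∀ y ∈ H, Nat.Coprime (b + y) W

/-- `N` in the class, all `N + y` (`y ∈ H`) without prime factor `< x^a` -/
def AdmH (x a : ℝ) (H : Finset ℕ) (W b N : ℕ) : Prop :=
  N % W = b % W ∧ ∀ y ∈ H, ∀ p : ℕ, p.Prime → p ∣ N + y → x ^ a ≤ (p : ℝ)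

open Classical in
/-- the result of part A: `m` disjoint cells of `s` shifts each; a probability measure on the admissible `N ∈ Tx x`
with density at most `C2/nm` against the Gaussian weight, and every cell contains a prime with probability
at least `13/50 - e`; uniformly in the cells, the modulus and the class -/
def BlkU : Prop := ∀ e : ℝ, 0 < e → ∀ m : ℕ, 1 ≤ m →
  ∃ (s : ℕ) (a C2 : ℝ), 1 ≤ s ∧ 0 < a ∧ a ≤ 1 / 20 ∧ 0 < C2 ∧
    ∀ A : ℝ, 0 < A → ∃ w0 : ℕ, ∀ w : ℕ, w0 ≤ w → ∀ᶠ x : ℝ in atTop,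
      ∀ (V : Fin m → Finset ℕ) (W b : ℕ), (∀ i j, i ≠ j → Disjoint (V i) (V j)) →
        (∀ j, (V j).card = s) → OkH A w x (univ.biUnion V) W b →
        ∃ μ : ℕ → ℝ, (∀ N, 0 ≤ μ N) ∧
          (∀ N, μ N ≠ 0 → N ∈ Tx x ∧ AdmH x a (univ.biUnion V) W b N) ∧
          (∀ N, μ N ≤ C2 * gw x N / nm x a W (m * s)) ∧ ∑ N ∈ Tx x, μ N = 1 ∧
          (∀ j, 13 / 50 - e ≤ ∑ N ∈ (Tx x).filter (fun N => ∃ y ∈ V j, (N + y).Prime), μ N)

end Pool.Agent.H61.UL
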